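import Pool.Agent.Y267.SP.B

/-!
# Asymptotic packing numbers of domains which contain a symplectic shell

Let `n ≥ 2`, let `D` be a domain of `ℝ²ⁿ` and `σ` a symplectic embedding of the shell
`{r₀ < |z| < r₁}` into `D`.  Then `p_{k,D}(X) ≤ |D| / |B(r₁)|` for every `k` and every open set
`X` of finite volume whose complement has no bounded component, and `p_D(X) ≤ |D| / |B(r₁)|` if the
volumes of the bounded components of the complement are bounded below by a positive constant.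
-/

open Set Metric MeasureTheory Filter
open scoped ContDiff Topology ENNReal Pointwise

noncomputable section

namespace Pool.Agent.Results.MP_6b8987_gt.SymplecticShells

/-- `ℝ²ⁿ` with coordinates `(x₁, …, xₙ, y₁, …, yₙ)`. -/
abbrev Sp (n : ℕ) := EuclideanSpace ℝ (Fin n ⊕ Fin n)

/-- The standard symplectic form `ω₀ = ∑ dxᵢ ∧ dyᵢ`. -/
def omega {n : ℕ} (u v : Sp n) : ℝ :=
  ∑ i : Fin n, (u (Sum.inl i) * v (Sum.inr i) - u (Sum.inr i) * v (Sum.inl i))

/-- `φ` restricts to a symplectic embedding of the open set `D` into the open set `X`. -/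
structure IsSymplecticEmbedding {n : ℕ} (D X : Set (Sp n)) (φ : Sp n → Sp n) : Prop where
  smooth : ContDiffOn ℝ ∞ φ D
  injective : InjOn φ D
  mapsTo : MapsTo φ D X
  symplectic : ∀ z ∈ D, ∀ u v : Sp n, omega (fderiv ℝ φ z u) (fderiv ℝ φ z v) = omega u v

/-- `k` pairwise disjoint symplectically embedded copies of `l • D` fit into `X`. -/
def Packs {n : ℕ} (k : ℕ) (D X : Set (Sp n)) (l : ℝ) : Prop :=
  0 < l ∧ ∃ φ : Fin k → Sp n → Sp n, (∀ i, IsSymplecticEmbedding (l • D) X (φ i)) ∧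
    ∀ i j, i ≠ j → Disjoint (φ i '' (l • D)) (φ j '' (l • D))

/-- The packing number `p_{k,D}(X)` of an open set `X` of finite volume in `ℝ²ⁿ`. -/
def packingNumber {n : ℕ} (k : ℕ) (D X : Set (Sp n)) : ℝ≥0∞ :=
  ⨆ (l : ℝ) (_ : Packs k D X l), (k : ℝ≥0∞) * volume (l • D) / volume X

/-- The asymptotic packing number `p_D(X)`. -/
def asymptoticPackingNumber {n : ℕ} (D X : Set (Sp n)) : ℝ≥0∞ :=
  liminf (fun k : ℕ => packingNumber k D X) atTop

/-- The spherical shell with radii `r₀` and `r₁`. -/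
def Shell (n : ℕ) (r₀ r₁ : ℝ) : Set (Sp n) := {z | r₀ < ‖z‖ ∧ ‖z‖ < r₁}

/-- No connected component of the complement of `X` is bounded. -/
def NoHoles {n : ℕ} (X : Set (Sp n)) : Prop :=
  ∀ x, x ∉ X → ¬ Bornology.IsBounded (connectedComponentIn Xᶜ x)

/-- The volumes of the bounded connected components of the complement of `X` are bounded below
by a positive constant. -/
def NoSmallHoles {n : ℕ} (X : Set (Sp n)) : Prop :=
  ∃ h : ℝ≥0∞, 0 < h ∧ ∀ x, x ∉ X → Bornology.IsBounded (connectedComponentIn Xᶜ x) →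
    h ≤ volume (connectedComponentIn Xᶜ x)

/-- The union of `X` and the bounded connected components of its complement. -/
def filled {n : ℕ} (X : Set (Sp n)) : Set (Sp n) :=
  X ∪ {x | x ∉ X ∧ Bornology.IsBounded (connectedComponentIn Xᶜ x)}

/-- A bounded domain: open, connected, nonempty and bounded. -/
def IsBoundedDomain {n : ℕ} (D : Set (Sp n)) : Prop :=
  IsOpen D ∧ IsConnected D ∧ Bornology.IsBounded D

/-- A target: an open set of finite nonzero volume. -/
def IsTarget {n : ℕ} (X : Set (Sp n)) : Prop := IsOpen X ∧ volume X ≠ 0 ∧ volume X ≠ ⊤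

/-- `p_{k,D}(X) ≤ c` for all `k` and all targets `X` without holes, and, for all targets `X`
without small holes, `p_{k,D}(X) ≤ c` for all large `k` and `p_D(X) ≤ c`. -/
def PackingBound {n : ℕ} (D : Set (Sp n)) (c : ℝ≥0∞) : Prop :=
  ∀ X : Set (Sp n), IsTarget X → (NoHoles X → ∀ k : ℕ, packingNumber k D X ≤ c) ∧
    (NoSmallHoles X → (∀ᶠ k : ℕ in atTop, packingNumber k D X ≤ c) ∧
      asymptoticPackingNumber D X ≤ c)

/-- The volume of the ball of radius `r` in `ℝ²ⁿ`. -/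
def ballVol (n : ℕ) (r : ℝ) : ℝ≥0∞ := volume (ball (0 : Sp n) r)

/-- Every open `D` with a symplectic embedding of a shell of outer radius `r₁` satisfies the bound
`|D|/|B(r₁)|`, and `p_{k,D}(X) ≤ |D|/|B(r₁)| · |X̂|/|X|` for all targets `X` and all `k`. -/
def ShellBound (n : ℕ) : Prop :=
  ∀ (D : Set (Sp n)) (r₀ r₁ : ℝ) (σ : Sp n → Sp n), IsOpen D → 0 < r₀ → r₀ < r₁ →
    IsSymplecticEmbedding (Shell n r₀ r₁) D σ →
      PackingBound D (volume D / ballVol n r₁) ∧
      ∀ X : Set (Sp n), IsTarget X → ∀ k : ℕ, packingNumber k D X ≤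
        volume D / ballVol n r₁ * (volume (filled X) / volume X)

/-- For a compact subset `K` of the open unit ball `B` the set `B ∖ K` satisfies the bound
`1 - |K|/|B|`. -/
def BallMinusCompact (n : ℕ) : Prop :=
  ∀ K : Set (Sp n), IsCompact K → K ⊆ ball 0 1 →
    PackingBound (ball 0 1 \ K) (1 - volume K / ballVol n 1)

/-- Nonempty star-shaped sets have no holes, and a set without holes has no small holes. -/
def HoleFacts (n : ℕ) : Prop :=
  (∀ (p : Sp n) (X : Set (Sp n)), StarConvex ℝ p X → X.Nonempty → NoHoles X) ∧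
    ∀ X : Set (Sp n), NoHoles X → NoSmallHoles X

/-- The shell `D = {ρ < |z| < 1}` is a bounded domain which satisfies the bound `1 - ρ²ⁿ`, and
`p_D(X) < 1` for `X` the unit ball and for `X = D`, which has no small holes. -/
def ShellExample (n : ℕ) (ρ : ℝ) : Prop :=
  IsBoundedDomain (Shell n ρ 1) ∧
    PackingBound (Shell n ρ 1) (ENNReal.ofReal (1 - ρ ^ (2 * n))) ∧
    asymptoticPackingNumber (Shell n ρ 1) (ball 0 1) < 1 ∧
    NoSmallHoles (Shell n ρ 1) ∧ asymptoticPackingNumber (Shell n ρ 1) (Shell n ρ 1) < 1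

open Pool.Agent.H275R3.Sh Pool.Agent.Y267.SP

/-- the complex structure -/
def Jlin (n : ℕ) : Sp n →ₗ[ℝ] Sp n where
  toFun u := WithLp.toLp 2 (Sum.elim (fun i => -u (Sum.inr i)) (fun i => u (Sum.inl i)))
  map_add' u v := by
    ext i
    rcases i with i | i <;> simp; ring
  map_smul' c u := by
    ext i
    rcases i with i | i <;> simp

def J (n : ℕ) : Sp n →L[ℝ] Sp n := (Jlin n).toContinuousLinearMap

@[simp] lemma J_inl {n : ℕ} (u : Sp n) (i : Fin n) : J n u (Sum.inl i) = -u (Sum.inr i) := rfl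
@[simp] lemma J_inr {n : ℕ} (u : Sp n) (i : Fin n) : J n u (Sum.inr i) = u (Sum.inl i) := rfl

lemma inner_J {n : ℕ} (u v : Sp n) : inner ℝ (J n u) v = omega u v := by
  rw [PiLp.inner_apply, Fintype.sum_sum_type, omega, ← Finset.sum_add_distrib]
  refine Finset.sum_congr rfl fun i _ => ?_
  simp
  ring

lemma isJ (n : ℕ) : IsJ (J n) where
  sq x := by
    ext i
    rcases i with i | i <;> simp
  iso x y := by
    rw [inner_J, PiLp.inner_apply, Fintype.sum_sum_type, omega, ← Finset.sum_add_distrib]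
    refine Finset.sum_congr rfl fun i _ => ?_
    simp
    ring

lemma finrank_Sp (n : ℕ) : Module.finrank ℝ (Sp n) = 2 * n := by
  rw [finrank_euclideanSpace, Fintype.card_sum, Fintype.card_fin]; ring

/-- a packing by copies of `D` gives a packing by shells -/
lemma packs_bound {n : ℕ} (hn : 2 ≤ n) {D : Set (Sp n)} (hD : IsOpen D) {r₀ r₁ : ℝ} (h0 : 0 < r₀)
    (h1 : r₀ < r₁) {σ : Sp n → Sp n} (hσ : IsSymplecticEmbedding (Shell n r₀ r₁) D σ)
    {X N : Set (Sp n)} {k : ℕ} {l : ℝ} (hl : Packs k D X l)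
    (hN : ∀ x, x ∉ N → x ∉ X ∧ (¬ Bornology.IsBounded (connectedComponentIn Xᶜ x) ∨
      ENNReal.ofReal (l ^ (2 * n)) * volume (ball (0 : Sp n) r₁) ≤
        volume (connectedComponentIn Xᶜ x))) :
    (k : ℝ≥0∞) * (ENNReal.ofReal (l ^ (2 * n)) * volume (ball (0 : Sp n) r₁)) ≤ volume N := by
  have hdim : 3 ≤ Module.finrank ℝ (Sp n) := by rw [finrank_Sp]; omega
  have hnt : Nontrivial (Sp n) := Module.nontrivial_of_finrank_pos (R := ℝ) (by omega)
  obtain ⟨hl0, φ, hφ, hd⟩ := hl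
  set R : ℝ := l⁻¹ with hR
  have hR0 : 0 < R := inv_pos.2 hl0
  have hRi : R⁻¹ = l := inv_inv l
  have e1 : volume (ball (0 : Sp n) (r₁ / R)) =
      ENNReal.ofReal (l ^ (2 * n)) * volume (ball (0 : Sp n) r₁) := by
    rw [Measure.addHaar_ball volume (0 : Sp n) (div_pos (h0.trans h1) hR0).le,
      Measure.addHaar_ball volume (0 : Sp n) (h0.trans h1).le, finrank_Sp, ← mul_assoc,
      ← ENNReal.ofReal_mul (by positivity)]
    congr 2
    rw [div_eq_mul_inv, hRi, mul_pow, mul_comm]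
  have hσ1 : ContDiffOn ℝ ∞ σ (shell (Sp n) r₀ r₁) := hσ.smooth
  have hσ2 : InjOn σ (shell (Sp n) r₀ r₁) := hσ.injective
  have hσ3 : SympOn (J n) σ (shell (Sp n) r₀ r₁) := by
    intro z hz u v
    rw [inner_J, inner_J]
    exact hσ.symplectic z hz u v
  set τ : Sp n → Sp n := fun z => R⁻¹ • σ (R • z) with hτ
  have hτ1 : ContDiffOn ℝ ∞ τ (shell (Sp n) (r₀ / R) (r₁ / R)) := scaled_smooth hR0 hσ1
  have hτ2 : InjOn τ (shell (Sp n) (r₀ / R) (r₁ / R)) := scaled_inj hR0 hσ2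
  have hτ3 : SympOn (J n) τ (shell (Sp n) (r₀ / R) (r₁ / R)) := scaled_symp hR0 hσ1 hσ3
  have hτ4 : MapsTo τ (shell (Sp n) (r₀ / R) (r₁ / R)) (l • D) := by
    intro z hz
    simp only [hτ, hRi]
    exact smul_mem_smul_set (hσ.mapsTo (mem_shell_smul hR0 hz))
  have hlD : IsOpen (l • D) := hD.smul₀ hl0.ne'
  have hU : IsOpen (shell (Sp n) (r₀ / R) (r₁ / R)) := isOpen_shell _ _
  have hb := volume_bound (isJ n) hdim (k := k) (φ := fun i z => φ i (τ z)) (r₀ := r₀ / R)
    (r₁ := r₁ / R) (X := X) (N := N) (div_pos h0 hR0) (div_lt_div_of_pos_right h1 hR0)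
    (fun i => (hφ i).smooth.comp hτ1 hτ4)
    (fun i => (hφ i).injective.comp hτ2 hτ4) ?_ (fun i z hz => (hφ i).mapsTo (hτ4 hz)) ?_ ?_
  · rwa [e1] at hb
  · intro i z hz u v
    have d1 : DifferentiableAt ℝ τ z := (hτ1.contDiffAt (hU.mem_nhds hz)).differentiableAt (by simp)
    have d2 : DifferentiableAt ℝ (φ i) (τ z) :=
      ((hφ i).smooth.contDiffAt (hlD.mem_nhds (hτ4 hz))).differentiableAt (by simp)
    have e2 : fderiv ℝ (fun z => φ i (τ z)) z = (fderiv ℝ (φ i) (τ z)).comp (fderiv ℝ τ z) :=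
      fderiv_comp z d2 d1
    rw [e2, ContinuousLinearMap.comp_apply, ContinuousLinearMap.comp_apply, inner_J,
      (hφ i).symplectic _ (hτ4 hz), ← inner_J]
    exact hτ3 z hz u v
  · intro i j hij
    refine (hd i j hij).mono ?_ ?_
    · rintro _ ⟨z, hz, rfl⟩; exact ⟨τ z, hτ4 hz, rfl⟩
    · rintro _ ⟨z, hz, rfl⟩; exact ⟨τ z, hτ4 hz, rfl⟩
  · intro x hx
    rw [e1]
    exact hN x hx

lemma volume_smul_Sp {n : ℕ} (D : Set (Sp n)) {l : ℝ} (hl : 0 < l) :
    volume (l • D) = ENNReal.ofReal (l ^ (2 * n)) * volume D := by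
  rw [Measure.addHaar_smul, finrank_Sp, abs_of_pos (by positivity)]

/-- symplectic embeddings preserve the volume -/
lemma volume_packs {n : ℕ} {D X : Set (Sp n)} (hD : IsOpen D) {k : ℕ} {l : ℝ}
    (hl : Packs k D X l) : (k : ℝ≥0∞) * volume (l • D) ≤ volume X := by
  obtain ⟨hl0, φ, hφ, hd⟩ := hl
  have hlD : IsOpen (l • D) := hD.smul₀ hl0.ne'
  have hder : ∀ i, ∀ z ∈ l • D, HasFDerivWithinAt (φ i) (fderiv ℝ (φ i) z) (l • D) z := fun i z hz =>
    (((hφ i).smooth.contDiffAt (hlD.mem_nhds hz)).differentiableAt (by simp)).hasFDerivAt.hasFDerivWithinAt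
  have hv : ∀ i, volume (φ i '' (l • D)) = volume (l • D) := by
    intro i
    rw [← lintegral_abs_det_fderiv_eq_addHaar_image volume hlD.measurableSet (hder i)
      (hφ i).injective]
    rw [setLIntegral_congr_fun hlD.measurableSet (g := fun _ => 1)]
    · simp
    · intro z hz
      simp only
      rw [(isJ n).abs_det]
      · simp
      · intro u v
        rw [inner_J, inner_J]
        exact (hφ i).symplectic z hz u v
  have hm : ∀ i, MeasurableSet (φ i '' (l • D)) := fun i =>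
    measurable_image_of_fderivWithin hlD.measurableSet (hder i) (hφ i).injective
  calc (k : ℝ≥0∞) * volume (l • D) = ∑ i : Fin k, volume (φ i '' (l • D)) := by
        simp only [hv]; simp
    _ = volume (⋃ i : Fin k, φ i '' (l • D)) := by
        rw [measure_iUnion (fun i j hij => hd i j hij) hm, tsum_fintype]
    _ ≤ volume X := by
        apply measure_mono
        refine iUnion_subset fun i => ?_
        rintro _ ⟨z, hz, rfl⟩
        exact (hφ i).mapsTo hz

lemma vol_ball_ne_zero {n : ℕ} {r : ℝ} (hr : 0 < r) : volume (ball (0 : Sp n) r) ≠ 0 :=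
  (measure_ball_pos volume (0 : Sp n) hr).ne'

lemma vol_ball_ne_top {n : ℕ} {r : ℝ} : volume (ball (0 : Sp n) r) ≠ ⊤ := measure_ball_lt_top.ne

/-- the bound for one scale -/
lemma term_bound {n : ℕ} (hn : 2 ≤ n) {D : Set (Sp n)} (hD : IsOpen D) {r₀ r₁ : ℝ} (h0 : 0 < r₀)
    (h1 : r₀ < r₁) {σ : Sp n → Sp n} (hσ : IsSymplecticEmbedding (Shell n r₀ r₁) D σ)
    {X N : Set (Sp n)} {k : ℕ} {l : ℝ} (hl : Packs k D X l)
    (hN : ∀ x, x ∉ N → x ∉ X ∧ (¬ Bornology.IsBounded (connectedComponentIn Xᶜ x) ∨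
      ENNReal.ofReal (l ^ (2 * n)) * volume (ball (0 : Sp n) r₁) ≤
        volume (connectedComponentIn Xᶜ x))) :
    (k : ℝ≥0∞) * volume (l • D) / volume X ≤
      volume D / volume (ball (0 : Sp n) r₁) * (volume N / volume X) := by
  have hb := packs_bound hn hD h0 h1 hσ hl hN
  have hB0 := vol_ball_ne_zero (n := n) (h0.trans h1)
  have hBt := vol_ball_ne_top (n := n) (r := r₁)
  rw [volume_smul_Sp D hl.1]
  have h2 : (k : ℝ≥0∞) * ENNReal.ofReal (l ^ (2 * n)) ≤ volume N / volume (ball (0 : Sp n) r₁) := by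
    rw [ENNReal.le_div_iff_mul_le (Or.inl hB0) (Or.inl hBt), mul_assoc]
    exact hb
  calc (k : ℝ≥0∞) * (ENNReal.ofReal (l ^ (2 * n)) * volume D) / volume X
      = ((k : ℝ≥0∞) * ENNReal.ofReal (l ^ (2 * n))) * volume D / volume X := by rw [mul_assoc]
    _ ≤ (volume N / volume (ball (0 : Sp n) r₁)) * volume D / volume X := by gcongr
    _ = _ := by
        rw [div_eq_mul_inv, div_eq_mul_inv, div_eq_mul_inv, div_eq_mul_inv]
        ring


lemma bound_filled {n : ℕ} (hn : 2 ≤ n) {D : Set (Sp n)} (hD : IsOpen D) {r₀ r₁ : ℝ} (h0 : 0 < r₀)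
    (h1 : r₀ < r₁) {σ : Sp n → Sp n} (hσ : IsSymplecticEmbedding (Shell n r₀ r₁) D σ)
    (X : Set (Sp n)) (k : ℕ) :
    packingNumber k D X ≤
      volume D / volume (ball (0 : Sp n) r₁) * (volume (filled X) / volume X) := by
  refine iSup₂_le fun l hl => term_bound hn hD h0 h1 hσ hl ?_
  intro x hx
  rw [filled, mem_union, not_or] at hx
  refine ⟨hx.1, Or.inl fun h => hx.2 ⟨hx.1, h⟩⟩

lemma bound_noHoles {n : ℕ} (hn : 2 ≤ n) {D : Set (Sp n)} (hD : IsOpen D) {r₀ r₁ : ℝ} (h0 : 0 < r₀)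
    (h1 : r₀ < r₁) {σ : Sp n → Sp n} (hσ : IsSymplecticEmbedding (Shell n r₀ r₁) D σ)
    {X : Set (Sp n)} (hX0 : volume X ≠ 0) (hXt : volume X ≠ ⊤) (hX : NoHoles X) (k : ℕ) :
    packingNumber k D X ≤ volume D / volume (ball (0 : Sp n) r₁) := by
  have h := bound_filled hn hD h0 h1 hσ X k
  have e : filled X = X := by
    apply Subset.antisymm
    · rintro x (hx | hx)
      · exact hx
      · exact absurd hx.2 (hX x hx.1)
    · exact subset_union_left
  rwa [e, ENNReal.div_self hX0 hXt, mul_one] at h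

lemma bound_noSmallHoles {n : ℕ} (hn : 2 ≤ n) {D : Set (Sp n)} (hD : IsOpen D) {r₀ r₁ : ℝ}
    (h0 : 0 < r₀) (h1 : r₀ < r₁) {σ : Sp n → Sp n}
    (hσ : IsSymplecticEmbedding (Shell n r₀ r₁) D σ)
    {X : Set (Sp n)} (hX0 : volume X ≠ 0) (hXt : volume X ≠ ⊤) (hX : NoSmallHoles X) :
    ∀ᶠ k : ℕ in atTop, packingNumber k D X ≤ volume D / volume (ball (0 : Sp n) r₁) := by
  obtain ⟨h, hh, hX⟩ := hX
  have hdim : 3 ≤ Module.finrank ℝ (Sp n) := by rw [finrank_Sp]; omega
  have hD0 : volume D ≠ 0 := by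
    obtain ⟨p, hp⟩ := exists_norm_eq' (V := Sp n) hdim (r := (r₀ + r₁) / 2) (by linarith)
    have hpS : p ∈ Shell n r₀ r₁ := by constructor <;> rw [hp] <;> linarith
    exact (hD.measure_pos volume ⟨σ p, hσ.mapsTo hpS⟩).ne'
  have hB0 := vol_ball_ne_zero (n := n) (h0.trans h1)
  have hBt := vol_ball_ne_top (n := n) (r := r₁)
  have hnum : volume X * volume (ball (0 : Sp n) r₁) ≠ ⊤ := ENNReal.mul_ne_top hXt hBt
  have hden : volume D * h ≠ 0 := mul_ne_zero hD0 hh.ne'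
  have hK : volume X * volume (ball (0 : Sp n) r₁) / (volume D * h) < ⊤ :=
    ENNReal.div_lt_top hnum hden
  have hev : ∀ᶠ k : ℕ in atTop,
      volume X * volume (ball (0 : Sp n) r₁) / (volume D * h) < (k : ℝ≥0∞) :=
    ENNReal.tendsto_nat_nhds_top.eventually (Ioi_mem_nhds hK)
  filter_upwards [hev] with k hk
  rw [ENNReal.div_lt_iff (Or.inl hden) (Or.inr hnum)] at hk
  refine iSup₂_le fun l hl => ?_
  have hsmall : ENNReal.ofReal (l ^ (2 * n)) * volume (ball (0 : Sp n) r₁) ≤ h := by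
    by_contra hcon
    rw [not_le] at hcon
    have h2 := volume_packs hD hl
    rw [volume_smul_Sp D hl.1] at h2
    have h3 : (k : ℝ≥0∞) * (volume D * h) ≤ volume X * volume (ball (0 : Sp n) r₁) := by
      calc (k : ℝ≥0∞) * (volume D * h)
          ≤ k * (volume D * (ENNReal.ofReal (l ^ (2 * n)) * volume (ball (0 : Sp n) r₁))) := by
            gcongr
        _ = (k * (ENNReal.ofReal (l ^ (2 * n)) * volume D)) * volume (ball (0 : Sp n) r₁) := by
            ring
        _ ≤ _ := by gcongr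
    exact absurd hk (not_lt.2 h3)
  have h4 := term_bound hn hD h0 h1 hσ hl (N := X) (fun x hx => ⟨hx, by
    by_cases hb : Bornology.IsBounded (connectedComponentIn Xᶜ x)
    · exact Or.inr (hsmall.trans (hX x hx hb))
    · exact Or.inl hb⟩)
  rwa [ENNReal.div_self hX0 hXt, mul_one] at h4

lemma asym_le {n : ℕ} {D X : Set (Sp n)} {c : ℝ≥0∞}
    (h : ∀ᶠ k : ℕ in atTop, packingNumber k D X ≤ c) : asymptoticPackingNumber D X ≤ c := by
  have := liminf_le_liminf (f := atTop) (u := fun k : ℕ => packingNumber k D X)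
    (v := fun _ => c) h
  rwa [liminf_const] at this

lemma NoHoles.noSmall {n : ℕ} {X : Set (Sp n)} (h : NoHoles X) : NoSmallHoles X :=
  ⟨1, one_pos, fun x hx hb => absurd hb (h x hx)⟩

/-- nonempty star-shaped sets have no holes -/
lemma noHoles_starConvex {n : ℕ} {p : Sp n} {X : Set (Sp n)} (hX : StarConvex ℝ p X)
    (hne : X.Nonempty) : NoHoles X := by
  intro x hx hb
  have hp : p ∈ X := hX.mem hne
  set γ : ℝ → Sp n := fun t => p + t • (x - p) with hγ
  have hγc : Continuous γ := by fun_prop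
  have hsub : γ '' Ici (1 : ℝ) ⊆ Xᶜ := by
    rintro _ ⟨t, ht, rfl⟩ hmem
    have ht1 : (1 : ℝ) ≤ t := ht
    have ht0 : 0 < t := by linarith
    apply hx
    have h2 := hX hmem (a := 1 - t⁻¹) (b := t⁻¹)
      (by rw [sub_nonneg]; exact inv_le_one_of_one_le₀ ht1) (by positivity) (by ring)
    have e : (1 - t⁻¹) • p + t⁻¹ • γ t = x := by
      simp only [hγ]
      rw [smul_add, smul_smul, inv_mul_cancel₀ ht0.ne', one_smul, sub_smul, one_smul]
      abel
    rwa [e] at h2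
  have hpre : IsPreconnected (γ '' Ici (1 : ℝ)) := isPreconnected_Ici.image _ hγc.continuousOn
  have hxm : x ∈ γ '' Ici (1 : ℝ) := ⟨1, self_mem_Ici, by simp [hγ]⟩
  have hin : γ '' Ici (1 : ℝ) ⊆ connectedComponentIn Xᶜ x :=
    hpre.subset_connectedComponentIn hxm hsub
  obtain ⟨R, hR⟩ := (hb.subset hin).exists_norm_le
  have hxp : 0 < ‖x - p‖ := by
    rw [norm_pos_iff, sub_ne_zero]
    rintro rfl
    exact hx hp
  set t : ℝ := 1 + (|R| + ‖p‖) / ‖x - p‖ with ht
  have ht1 : 1 ≤ t := by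
    have : 0 ≤ (|R| + ‖p‖) / ‖x - p‖ := by positivity
    linarith
  have h3 := hR _ ⟨t, ht1, rfl⟩
  have h4 : ‖t • (x - p)‖ ≤ ‖γ t‖ + ‖p‖ := by
    have : t • (x - p) = γ t - p := by simp only [hγ]; abel
    rw [this]
    exact norm_sub_le _ _
  rw [norm_smul, Real.norm_eq_abs, abs_of_pos (by linarith)] at h4
  have h5 : t * ‖x - p‖ = ‖x - p‖ + (|R| + ‖p‖) := by
    rw [ht, add_mul, one_mul, div_mul_cancel₀ _ hxp.ne']
  have := le_abs_self R
  linarith

lemma id_embedding {n : ℕ} {U D : Set (Sp n)} (h : U ⊆ D) :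
    IsSymplecticEmbedding U D (fun z => z) where
  smooth := contDiffOn_id
  injective := injOn_id _
  mapsTo := h
  symplectic z _ u v := by
    have : fderiv ℝ (fun z : Sp n => z) z = ContinuousLinearMap.id ℝ (Sp n) := fderiv_id
    rw [this]; rfl

/-- the ball without a compact subset contains a shell -/
lemma exists_shell {n : ℕ} {K : Set (Sp n)} (hK : IsCompact K) (hKB : K ⊆ ball 0 1) :
    ∃ r₀ : ℝ, 0 < r₀ ∧ r₀ < 1 ∧ Shell n r₀ 1 ⊆ ball 0 1 \ K := by
  have key : ∃ r₀ : ℝ, 0 < r₀ ∧ r₀ < 1 ∧ ∀ x ∈ K, ‖x‖ ≤ r₀ := by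
    by_cases hne : K.Nonempty
    · obtain ⟨x, hx, hmax⟩ := hK.exists_isMaxOn hne continuous_norm.continuousOn
      have hx1 : ‖x‖ < 1 := by
        have := hKB hx
        rwa [mem_ball_zero_iff] at this
      exact ⟨max ‖x‖ (1 / 2), by positivity, max_lt hx1 (by norm_num),
        fun y hy => (hmax hy).trans (le_max_left _ _)⟩
    · exact ⟨1 / 2, by norm_num, by norm_num, fun x hx => absurd ⟨x, hx⟩ hne⟩
  obtain ⟨r₀, h0, h1, h⟩ := key
  refine ⟨r₀, h0, h1, fun z hz => ⟨?_, fun hzK => ?_⟩⟩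
  · rw [mem_ball_zero_iff]; exact hz.2
  · exact absurd (h z hzK) (not_le.2 hz.1)

lemma ratio_sdiff {n : ℕ} {K : Set (Sp n)} (hK : IsCompact K) (hKB : K ⊆ ball 0 1) :
    volume (ball (0 : Sp n) 1 \ K) / volume (ball (0 : Sp n) 1) =
      1 - volume K / volume (ball (0 : Sp n) 1) := by
  have hB0 := vol_ball_ne_zero (n := n) one_pos
  have hBt := vol_ball_ne_top (n := n) (r := 1)
  rw [measure_sdiff hKB hK.measurableSet.nullMeasurableSet (hK.measure_lt_top).ne]
  rw [ENNReal.sub_div (fun _ _ => hB0), ENNReal.div_self hB0 hBt]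

lemma volume_closedBall {n : ℕ} {ρ : ℝ} (h0 : 0 < ρ) :
    volume (closedBall (0 : Sp n) ρ) = ENNReal.ofReal (ρ ^ (2 * n)) * volume (ball (0 : Sp n) 1) := by
  rw [Measure.addHaar_closedBall volume (0 : Sp n) h0.le, finrank_Sp]

lemma shell_eq {n : ℕ} (ρ : ℝ) : Shell n ρ 1 = ball 0 1 \ closedBall 0 ρ := by
  ext x
  simp only [Shell, mem_ofPred_eq, Set.mem_sdiff, mem_ball_zero_iff, mem_closedBall_zero_iff, not_le]
  tauto

lemma ratio_shell {n : ℕ} {ρ : ℝ} (h0 : 0 < ρ) (h1 : ρ < 1) :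
    volume (Shell n ρ 1) / volume (ball (0 : Sp n) 1) = ENNReal.ofReal (1 - ρ ^ (2 * n)) := by
  have hB0 := vol_ball_ne_zero (n := n) one_pos
  have hBt := vol_ball_ne_top (n := n) (r := 1)
  rw [shell_eq, ratio_sdiff (isCompact_closedBall _ _) (closedBall_subset_ball h1),
    volume_closedBall h0, ENNReal.mul_div_cancel_right hB0 hBt,
    ENNReal.ofReal_sub _ (by positivity), ENNReal.ofReal_one]

/-- the shell as a target: its complement has one bounded component, a closed ball -/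
lemma noSmallHoles_shell {n : ℕ} {ρ : ℝ} (h0 : 0 < ρ) :
    NoSmallHoles (Shell n ρ 1) := by
  refine ⟨volume (closedBall (0 : Sp n) ρ), ?_, ?_⟩
  · exact (measure_closedBall_pos volume (0 : Sp n) h0)
  · intro x hx hb
    by_cases hx1 : ‖x‖ ≤ ρ
    · apply measure_mono
      refine (convex_closedBall (0 : Sp n) ρ).isPreconnected.subset_connectedComponentIn
        (mem_closedBall_zero_iff.2 hx1) ?_
      intro y hy hyS
      rw [mem_closedBall_zero_iff] at hy
      exact absurd hyS.1 (not_lt.2 hy)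
    · exfalso
      have hx2 : 1 ≤ ‖x‖ := by
        by_contra h
        exact hx ⟨not_le.1 hx1, not_le.1 h⟩
      have hB : x ∉ ball (0 : Sp n) 1 := by
        rw [mem_ball_zero_iff, not_lt]; exact hx2
      refine noHoles_starConvex (p := (0 : Sp n)) (X := ball 0 1)
        ((convex_ball _ _).starConvex (mem_ball_self one_pos)) ⟨0, mem_ball_self one_pos⟩ x hB ?_
      refine hb.subset ?_
      refine isPreconnected_connectedComponentIn.subset_connectedComponentIn
        (mem_connectedComponentIn hB) ?_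
      refine (connectedComponentIn_subset _ _).trans ?_
      intro y hy hyS
      exact hy (mem_ball_zero_iff.2 hyS.2)


lemma noHoles_ball (n : ℕ) : NoHoles (ball (0 : Sp n) 1) :=
  noHoles_starConvex (p := (0 : Sp n)) ((convex_ball _ _).starConvex (mem_ball_self one_pos))
    ⟨0, mem_ball_self one_pos⟩

/-- Let `n ≥ 2`.
(1) Let `D ⊆ ℝ²ⁿ` be open and `σ` a symplectic embedding of a shell `{r₀ < |z| < r₁}` into `D`.
Then `p_{k,D}(X) ≤ |D|/|B(r₁)|` for all `k` and all targets `X` without holes; if `X` has no small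
holes, then `p_{k,D}(X) ≤ |D|/|B(r₁)|` for all large `k`, so that `p_D(X) ≤ |D|/|B(r₁)|`.  For every
target and all `k`, `p_{k,D}(X) ≤ |D|/|B(r₁)| · |X̂|/|X|`, where `X̂` is `X` together with the bounded
components of its complement.
(2) In particular the bound `1 - |K|/|B|` holds for `D = B ∖ K`, `K` a compact subset of the open
unit ball `B`.
(3) Nonempty star-shaped sets have no holes, a set without holes has no small holes.
(4) For `0 < ρ < 1` the shell `D = {ρ < |z| < 1}` is a bounded domain, the bound is `1 - ρ²ⁿ`, and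
`p_D(X) < 1` for `X` the unit ball and for `X = D`, which has no small holes.
(5) For every `ε > 0` the bound `ε` holds for some bounded domain. -/
theorem result : ∀ n : ℕ, 2 ≤ n →
    ShellBound n ∧ BallMinusCompact n ∧ HoleFacts n ∧
    (∀ ρ : ℝ, 0 < ρ → ρ < 1 → ShellExample n ρ) ∧
    (∀ ε : ℝ, 0 < ε → ∃ D : Set (Sp n), IsBoundedDomain D ∧
      PackingBound D (ENNReal.ofReal ε)) := by
  intro n hn
  have hdim : 3 ≤ Module.finrank ℝ (Sp n) := by rw [finrank_Sp]; omega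
  have hconn : ∀ ρ : ℝ, 0 < ρ → ρ < 1 → IsConnected (Shell n ρ 1) := by
    intro ρ h0 h1
    refine ⟨?_, isPreconnected_shell hdim h0⟩
    obtain ⟨p, hp⟩ := exists_norm_eq' (V := Sp n) hdim (r := (ρ + 1) / 2) (by linarith)
    exact ⟨p, by constructor <;> rw [hp] <;> linarith⟩
  have hbdd : ∀ ρ : ℝ, Bornology.IsBounded (Shell n ρ 1) := by
    intro ρ
    refine (Metric.isBounded_ball (x := (0 : Sp n)) (r := 1)).subset ?_
    intro z hz
    rw [mem_ball_zero_iff]; exact hz.2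
  have hopen : ∀ ρ : ℝ, IsOpen (Shell n ρ 1) := fun ρ => isOpen_shell ρ 1
  have hgen : ∀ (D : Set (Sp n)) (r₀ r₁ : ℝ) (σ : Sp n → Sp n), IsOpen D → 0 < r₀ → r₀ < r₁ →
      IsSymplecticEmbedding (Shell n r₀ r₁) D σ →
        PackingBound D (volume D / volume (ball (0 : Sp n) r₁)) := by
    rintro D r₀ r₁ σ hD h0 h1 hσ X ⟨_, hX0, hXt⟩
    refine ⟨bound_noHoles hn hD h0 h1 hσ hX0 hXt, fun hX => ?_⟩
    have := bound_noSmallHoles hn hD h0 h1 hσ hX0 hXt hX
    exact ⟨this, asym_le this⟩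
  have hsh : ∀ ρ : ℝ, 0 < ρ → ρ < 1 →
      PackingBound (Shell n ρ 1) (ENNReal.ofReal (1 - ρ ^ (2 * n))) := by
    intro ρ h0 h1
    rw [← ratio_shell h0 h1]
    exact hgen _ ρ 1 _ (hopen ρ) h0 h1 (id_embedding subset_rfl)
  have hlt : ∀ ρ : ℝ, 0 < ρ → ρ < 1 → ENNReal.ofReal (1 - ρ ^ (2 * n)) < 1 := by
    intro ρ h0 h1
    have hρ : 0 < ρ ^ (2 * n) := by positivity
    rw [← ENNReal.ofReal_one]
    exact (ENNReal.ofReal_lt_ofReal_iff one_pos).2 (by linarith)
  refine ⟨fun D r₀ r₁ σ hD h0 h1 hσ => ⟨hgen D r₀ r₁ σ hD h0 h1 hσ, fun X _ k =>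
    bound_filled hn hD h0 h1 hσ X k⟩, ?_, ⟨fun p X h1 h2 => noHoles_starConvex h1 h2,
    fun X h => h.noSmall⟩, ?_, ?_⟩
  · intro K hK hKB
    obtain ⟨r₀, h0, h1, hs⟩ := exists_shell hK hKB
    have hD : IsOpen (ball (0 : Sp n) 1 \ K) := isOpen_ball.sdiff hK.isClosed
    rw [ballVol, ← ratio_sdiff hK hKB]
    exact hgen _ r₀ 1 _ hD h0 h1 (id_embedding hs)
  · intro ρ h0 h1
    refine ⟨⟨hopen ρ, hconn ρ h0 h1, hbdd ρ⟩, hsh ρ h0 h1, ?_, noSmallHoles_shell h0, ?_⟩
    · exact ((hsh ρ h0 h1 _ ⟨isOpen_ball, vol_ball_ne_zero one_pos, vol_ball_ne_top⟩).2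
        (noHoles_ball n).noSmall).2.trans_lt (hlt ρ h0 h1)
    · refine ((hsh ρ h0 h1 _ ⟨hopen ρ, ?_, ?_⟩).2 (noSmallHoles_shell h0)).2.trans_lt (hlt ρ h0 h1)
      · exact ((hopen ρ).measure_pos volume (hconn ρ h0 h1).nonempty).ne'
      · exact (hbdd ρ).measure_lt_top.ne
  · intro ε hε
    obtain ⟨ρ, h0, h1, hρ⟩ : ∃ ρ : ℝ, 0 < ρ ∧ ρ < 1 ∧ 1 - ρ ^ (2 * n) ≤ ε := by
      have hc : Tendsto (fun ρ : ℝ => 1 - ρ ^ (2 * n)) (𝓝[<] 1) (𝓝 (1 - 1 ^ (2 * n))) := by
        refine Tendsto.mono_left ?_ nhdsWithin_le_nhds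
        exact (continuous_const.sub (continuous_pow _)).tendsto 1
      rw [one_pow, sub_self] at hc
      have e1 : ∀ᶠ ρ : ℝ in 𝓝[<] 1, 1 - ρ ^ (2 * n) < ε := hc.eventually (Iio_mem_nhds hε)
      have e2 : ∀ᶠ ρ : ℝ in 𝓝[<] 1, ρ ∈ Ioo (0 : ℝ) 1 := Ioo_mem_nhdsLT one_pos
      obtain ⟨ρ, hρ1, hρ2⟩ := (e1.and e2).exists
      exact ⟨ρ, hρ2.1, hρ2.2, hρ1.le⟩
    refine ⟨Shell n ρ 1, ⟨hopen ρ, hconn ρ h0 h1, hbdd ρ⟩, fun X hX => ?_⟩
    have hle := ENNReal.ofReal_le_ofReal hρ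
    obtain ⟨a1, a2⟩ := hsh ρ h0 h1 X hX
    exact ⟨fun h k => (a1 h k).trans hle,
      fun h => ⟨(a2 h).1.mono fun k hk => hk.trans hle, (a2 h).2.trans hle⟩⟩

end Pool.Agent.Results.MP_6b8987_gt.SymplecticShells
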